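import Pool.Agent.Lib.EX95.Pair

namespace Pool.Agent.Results.MP_e70876_an.PairFailure

open Pool.Agent.Lib.MP_e70876_an
open scoped InnerProductSpace

/-- There is a countably infinite set `Λ` of real frequencies such that the exponentials
`exp (i z t)`, `z ∈ Λ`, form an exact system in `L²(-π, π)` (with biorthogonal system `g`) that is
hereditarily complete but is not a linear summation basis; the failure is already seen on two
functions, which no finitely supported multiplier approximates simultaneously. -/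
theorem result : ∃ (Λ : Set ℂ) (g : ℂ → LTwo), (∀ z ∈ Λ, z.im = 0) ∧ Nonempty (ℕ ≃ Λ) ∧
    IsExact Λ ∧ IsBiorthogonal Λ g ∧ IsHereditarilyComplete Λ g ∧
    ¬ IsLinearSummationBasis Λ g ∧
    ∃ (f₁ f₂ : LTwo) (δ : ℝ), 0 < δ ∧ ∀ (s : Finset ℂ) (w : ℂ → ℂ), (s : Set ℂ) ⊆ Λ →
      δ ≤ ‖∑ z ∈ s, w z • ⟪g z, f₁⟫_ℂ • expo z - f₁‖ +
        ‖∑ z ∈ s, w z • ⟪g z, f₂⟫_ℂ • expo z - f₂‖ :=
  Pool.Agent.Lib.EX95.main

end Pool.Agent.Results.MP_e70876_an.PairFailure
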